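import Pool.Agent.Helper19.HV.DBIb

/-! # HV: the row DBI -/

set_option autoImplicit false

namespace Pool.Agent.Helper19.HV

open MeasureTheory Filter Topology Pool.Agent.Helper95 Pool.Agent.Helper95.PW
  Pool.Agent.Helper95.LN Pool.Agent.Helper95.CF Pool.Agent.Helper95.HV
  Pool.Agent.Helper14.PW Pool.Agent.Helper51.LN

theorem dbi_D2 {n M : ℕ} (X : Fin M → R3) (Z : Fin M → ℝ) (g : R3 → ℝ) (x : Cf n) :
    D2 X Z g x = (∑ k, ∑ l, if k < l then dbP g k l x else 0) -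
      ∑ j, Z j * ∑ k, dbN g (X j) (x k) := by
  have e1 : D2 X Z g x = (∑ k, ∑ l, if k < l then dbP g k l x else 0) +
      ∑ k, ∑ j, Z j * ((∑ i, gq g (x k) i * (x k i - X j i)) / nr (x k - X j) ^ 3 -
    Tq (x k - X j) (gv g (x k)) (gv g (x k))) := rfl
  rw [e1, sub_eq_add_neg]
  congr 1
  rw [Finset.sum_comm, ← Finset.sum_neg_distrib]
  refine Finset.sum_congr rfl fun j _ => ?_
  rw [← mul_neg, ← Finset.sum_neg_distrib, Finset.mul_sum]
  refine Finset.sum_congr rfl fun k _ => ?_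
  unfold dbN
  ring

theorem dbi_nucsum (h5 : ST_INTM) {n M : ℕ} (X : Fin M → R3) (Z : Fin M → ℝ)
    {v w : Cf n → ℝ} (hv : ContDiff ℝ (⊤ : ℕ∞) v) (hvc : HasCompactSupport v)
    (hw : ContDiff ℝ (⊤ : ℕ∞) w) (hwc : HasCompactSupport w) :
    ∫ x, (∑ k, pot X Z (x k)) * (v x * w x) =
      ∑ j, Z j * ∫ x : Cf n, (∑ k, 1 / nr (x k - X j)) * (v x * w x) := by
  have a1 : ∀ x : Cf n, (∑ k, pot X Z (x k)) * (v x * w x) =
      ∑ j, Z j * ((∑ k, 1 / nr (x k - X j)) * (v x * w x)) := by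
    intro x
    unfold pot
    rw [Finset.sum_comm, Finset.sum_mul]
    refine Finset.sum_congr rfl fun j _ => ?_
    have a2 : ∑ k, Z j / nr (x k - X j) = Z j * ∑ k, 1 / nr (x k - X j) := by
      rw [Finset.mul_sum]
      refine Finset.sum_congr rfl fun k _ => ?_
      ring
    rw [a2]
    ring
  simp only [a1]
  rw [integral_finsetSum _ fun j _ => (pinM_int h5 (X j) hv hvc hw hwc).const_mul (Z j)]
  refine Finset.sum_congr rfl fun j _ => ?_
  rw [integral_const_mul]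

theorem dbi_split (hPAN : ST_PAN) (hSTB : ST_STB) (hI : ST_INTM) {n M : ℕ}
    (X : Fin M → R3) (Z : Fin M → ℝ) {g : R3 → ℝ} {K r : ℝ} (hS : Scale g K r) (hr : 0 < r)
    {v : Cf n → ℝ} (hv : ContDiff ℝ (⊤ : ℕ∞) v) (hvc : HasCompactSupport v) :
    ∫ x, (rep x - ∑ k, pot X Z (x k)) * (Pg g v x ^ 2 + Pg g (Pg g v) x * v x) =
      1 / 2 * (∑ k, ∑ l, if k < l then ∫ x, dbP g k l x * v x ^ 2 else 0) -
      ∑ j, Z j * ((∫ x, (∑ k, 1 / nr (x k - X j)) * (Pg g v x * Pg g v x)) +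
        ∫ x, (∑ k, 1 / nr (x k - X j)) * (Pg g (Pg g v) x * v x)) := by
  have hg := hS.sm
  obtain ⟨hp, hpc⟩ := poe_sm hSTB hg hv hvc
  obtain ⟨hpp, hppc⟩ := poe_sm hSTB hg hp hpc
  have c1 : Continuous (fun x => Pg g v x * Pg g v x) := hp.continuous.mul hp.continuous
  have c2 : Continuous (fun x => Pg g (Pg g v) x * v x) := hpp.continuous.mul hv.continuous
  obtain ⟨K1, K2, -, -⟩ := hI n M X Z _ _ hp hpc hp hpc
  obtain ⟨L1, L2, -, -⟩ := hI n M X Z _ _ hpp hppc hv hvc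
  have e : (fun x => (rep x - ∑ k, pot X Z (x k)) *
      (Pg g v x ^ 2 + Pg g (Pg g v) x * v x)) = fun x =>
      (rep x * (Pg g v x * Pg g v x) + rep x * (Pg g (Pg g v) x * v x)) -
      ((∑ k, pot X Z (x k)) * (Pg g v x * Pg g v x) +
        (∑ k, pot X Z (x k)) * (Pg g (Pg g v) x * v x)) := by
    funext x
    ring
  have R1 : Integrable (fun x => rep x * (Pg g v x * Pg g v x) +
      rep x * (Pg g (Pg g v) x * v x)) := K2.add L2
  have R2 : Integrable (fun x => (∑ k, pot X Z (x k)) * (Pg g v x * Pg g v x) +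
        (∑ k, pot X Z (x k)) * (Pg g (Pg g v) x * v x)) := K1.add L1
  rw [e, integral_sub R1 R2, integral_add K2 L2, integral_add K1 L1,
    dbi_nucsum hI X Z hp hpc hp hpc, dbi_nucsum hI X Z hpp hppc hv hvc,
    poe_sum c1 K2, poe_sum c2 L2]
  congr 1
  · rw [← Finset.sum_add_distrib, Finset.mul_sum]
    refine Finset.sum_congr rfl fun k _ => ?_
    rw [← Finset.sum_add_distrib, Finset.mul_sum]
    refine Finset.sum_congr rfl fun l _ => ?_
    split_ifs with hkl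
    · exact (dbi_pair hPAN hSTB hI hS hr hkl hv hvc).2
    · simp
  · rw [← Finset.sum_add_distrib]
    refine Finset.sum_congr rfl fun j _ => ?_
    ring

theorem dbi_nlimit (h1 : ST_PAN) (h2 : ST_STB) (h3 : ST_INTM) {n M : ℕ} (X : Fin M → R3)
    (Z : Fin M → ℝ) {g : Fin 3 → R3 → ℝ} {K ρ B1 s0 : ℝ} {u : Wf n} (hZ : ∀ j, 0 ≤ Z j)
    (hρ : 0 < ρ) (hs0 : 0 < s0) (hK : ∀ m, Scale (g m) K ρ)
    (h : ∀ m j y, nr (y - X j) < ρ → ∀ i, pd i (g m) y = if i = m then 1 else 0) (hu : Sm u)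
    (hB : ∀ s : ℝ, 0 < s → s ≤ s0 → ∑ j, Z j * one (fun y => mor s (y - X j)) u ≤ B1) :
    -(∑ j, Z j * ∑ σ, ∑ m, ((∫ x, (∑ k, 1 / nr (x k - X j)) *
        (Pg (g m) (u σ) x * Pg (g m) (u σ) x)) +
        ∫ x, (∑ k, 1 / nr (x k - X j)) * (Pg (g m) (Pg (g m) (u σ)) x * u σ x))) ≤
      -(1 / 2 * ∑ j, Z j * ∑ σ, ∫ x : Cf n, (∑ k, ∑ m, dbN (g m) (X j) (x k)) * u σ x ^ 2) +
      B1 / 2 := by
  have hg := fun m => (hK m).sm
  have hP := fun m σ => poe_sm h2 (hg m) (hu σ).1 (hu σ).2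
  have hPP := fun m σ => poe_sm h2 (hg m) (hP m σ).1 (hP m σ).2
  have t1 : Tendsto (fun i : ℕ => -(∑ j, Z j * ∑ σ, ∑ m,
      ((∫ x, pin_S (pinM_U (X j) (1 / ((i : ℝ) + 1))) x *
        (Pg (g m) (u σ) x * Pg (g m) (u σ) x)) +
        ∫ x, pin_S (pinM_U (X j) (1 / ((i : ℝ) + 1))) x *
          (Pg (g m) (Pg (g m) (u σ)) x * u σ x)))) atTop
      (𝓝 (-(∑ j, Z j * ∑ σ, ∑ m, ((∫ x, (∑ k, 1 / nr (x k - X j)) *
        (Pg (g m) (u σ) x * Pg (g m) (u σ) x)) +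
        ∫ x, (∑ k, 1 / nr (x k - X j)) * (Pg (g m) (Pg (g m) (u σ)) x * u σ x))))) := by
    refine Tendsto.neg (tendsto_finsetSum _ fun j _ => (tendsto_finsetSum _ fun σ _ =>
      tendsto_finsetSum _ fun m _ => Tendsto.add ?_ ?_).const_mul _)
    · exact pinM_lim h3 (X j) (hP m σ).1 (hP m σ).2 (hP m σ).1 (hP m σ).2
    · exact pinM_lim h3 (X j) (hPP m σ).1 (hPP m σ).2 (hu σ).1 (hu σ).2
  have t2 : Tendsto (fun i : ℕ => -(1 / 2 * ∑ j, Z j * ∑ σ,
      ∫ x : Cf n, pin_S (dbG g ρ (X j) (1 / ((i : ℝ) + 1))) x * u σ x ^ 2) + B1 / 2) atTop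
      (𝓝 (-(1 / 2 * ∑ j, Z j * ∑ σ,
        ∫ x : Cf n, (∑ k, ∑ m, dbN (g m) (X j) (x k)) * u σ x ^ 2) + B1 / 2)) := by
    refine Tendsto.add_const _ (Tendsto.neg (Tendsto.const_mul _ (tendsto_finsetSum _
      fun j _ => (tendsto_finsetSum _ fun σ _ => ?_).const_mul _)))
    exact (dbi_nuclim (X j) hρ hK (fun m y hy => h m j y hy) (hu σ).1 (hu σ).2).2
  refine le_of_tendsto_of_tendsto t1 t2 ?_
  have hev : ∀ᶠ i : ℕ in atTop, 1 / ((i : ℝ) + 1) ≤ s0 :=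
    tendsto_one_div_add_atTop_nhds_zero_nat.eventually_le_const hs0
  filter_upwards [hev] with i hi
  have hs : (0 : ℝ) < 1 / ((i : ℝ) + 1) := by positivity
  have hb := hB _ hs hi
  generalize 1 / ((i : ℝ) + 1) = s at hs hb ⊢
  have key : ∀ j σ, -(∑ m, ((∫ x, pin_S (pinM_U (X j) s) x *
        (Pg (g m) (u σ) x * Pg (g m) (u σ) x)) +
        ∫ x, pin_S (pinM_U (X j) s) x * (Pg (g m) (Pg (g m) (u σ)) x * u σ x))) ≤
      -(1 / 2 * ∫ x, pin_S (dbG g ρ (X j) s) x * u σ x ^ 2) +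
        1 / 2 * ∫ x, (∑ k, mor s (x k - X j)) * u σ x ^ 2 := by
    intro j σ
    have := dbi_nineq h1 h2 (X j) hs hρ hK (fun m y hy => h m j y hy) (hu σ).1 (hu σ).2
    have e : ∀ m, (∫ x, pin_S (pinM_U (X j) s) x * Pg (g m) (u σ) x ^ 2) =
        ∫ x, pin_S (pinM_U (X j) s) x * (Pg (g m) (u σ) x * Pg (g m) (u σ) x) := by
      intro m
      congr 1
      funext x
      ring
    simp only [e] at this
    exact this
  have e1 : -(∑ j, Z j * ∑ σ, ∑ m, ((∫ x, pin_S (pinM_U (X j) s) x *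
        (Pg (g m) (u σ) x * Pg (g m) (u σ) x)) +
        ∫ x, pin_S (pinM_U (X j) s) x * (Pg (g m) (Pg (g m) (u σ)) x * u σ x))) =
      ∑ j, Z j * ∑ σ, -(∑ m, ((∫ x, pin_S (pinM_U (X j) s) x *
        (Pg (g m) (u σ) x * Pg (g m) (u σ) x)) +
        ∫ x, pin_S (pinM_U (X j) s) x * (Pg (g m) (Pg (g m) (u σ)) x * u σ x))) := by
    rw [← Finset.sum_neg_distrib]
    refine Finset.sum_congr rfl fun j _ => ?_
    rw [Finset.sum_neg_distrib, mul_neg]
  have e2 : ∑ j, Z j * ∑ σ, -(∑ m, ((∫ x, pin_S (pinM_U (X j) s) x *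
        (Pg (g m) (u σ) x * Pg (g m) (u σ) x)) +
        ∫ x, pin_S (pinM_U (X j) s) x * (Pg (g m) (Pg (g m) (u σ)) x * u σ x))) ≤
      ∑ j, Z j * ∑ σ, (-(1 / 2 * ∫ x, pin_S (dbG g ρ (X j) s) x * u σ x ^ 2) +
        1 / 2 * ∫ x, (∑ k, mor s (x k - X j)) * u σ x ^ 2) :=
    Finset.sum_le_sum fun j _ => mul_le_mul_of_nonneg_left
      (Finset.sum_le_sum fun σ _ => key j σ) (hZ j)
  have e3 : ∑ j, Z j * ∑ σ, (-(1 / 2 * ∫ x, pin_S (dbG g ρ (X j) s) x * u σ x ^ 2) +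
        1 / 2 * ∫ x, (∑ k, mor s (x k - X j)) * u σ x ^ 2) =
      -(1 / 2 * ∑ j, Z j * ∑ σ, ∫ x, pin_S (dbG g ρ (X j) s) x * u σ x ^ 2) +
      1 / 2 * ∑ j, Z j * one (fun y => mor s (y - X j)) u := by
    unfold one
    rw [Finset.mul_sum, Finset.mul_sum, ← Finset.sum_neg_distrib, ← Finset.sum_add_distrib]
    refine Finset.sum_congr rfl fun j _ => ?_
    rw [Finset.sum_add_distrib, Finset.sum_neg_distrib, ← Finset.mul_sum, ← Finset.mul_sum]
    ring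
  rw [e1]
  refine e2.trans ?_
  rw [e3]
  linarith

theorem DBI (_h1 : ST_IBP) (h2 : ST_PAN) (h3 : ST_STB) (h4 : ST_INTM) (_h5 : ST_HA2)
    (_h6 : ST_HA3) : ST_DBI := by
  intro n M X Z g ρ B1 s0 u hZ _ hg hc hρ hs0 hball hu hB1
  obtain ⟨K, hK⟩ : ∃ K, ∀ m, Scale (g m) K ρ := by
    choose K0 hK0 using fun m => dbi_scale (hg m) (hc m) hρ
    exact ⟨∑ m, |K0 m|, fun m => hK0 m _ ((le_abs_self _).trans
      (Finset.single_le_sum (f := fun m => |K0 m|) (fun j _ => abs_nonneg _)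
        (Finset.mem_univ m)))⟩
  have NL := fun j σ => dbi_nuclim (X j) hρ hK (fun m y hy => hball m j y hy)
    (hu σ).1 (hu σ).2
  have Dsum : ∀ σ, (fun x => (∑ m, D2 X Z (g m) x) * u σ x ^ 2) = fun x =>
      (∑ m, ∑ k, ∑ l, if k < l then dbP (g m) k l x * u σ x ^ 2 else 0) -
      ∑ j, Z j * ((∑ k, ∑ m, dbN (g m) (X j) (x k)) * u σ x ^ 2) := by
    intro σ
    funext x
    simp only [dbi_D2]
    rw [Finset.sum_sub_distrib, sub_mul]
    congr 1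
    · rw [Finset.sum_mul]
      refine Finset.sum_congr rfl fun m _ => ?_
      rw [Finset.sum_mul]
      refine Finset.sum_congr rfl fun k _ => ?_
      rw [Finset.sum_mul]
      refine Finset.sum_congr rfl fun l _ => ?_
      split_ifs
      · rfl
      · exact zero_mul _
    · rw [Finset.sum_comm, Finset.sum_mul]
      refine Finset.sum_congr rfl fun j _ => ?_
      rw [← Finset.mul_sum, Finset.sum_comm, mul_assoc]
  have IP : ∀ σ m k l, Integrable (fun x : Cf n =>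
      if k < l then dbP (g m) k l x * u σ x ^ 2 else 0) := by
    intro σ m k l
    split_ifs with hkl
    · exact (dbi_pair h2 h3 h4 (hK m) hρ hkl (hu σ).1 (hu σ).2).1
    · exact integrable_zero _ _ _
  have I1 : ∀ σ, Integrable (fun x : Cf n =>
      ∑ m, ∑ k, ∑ l, if k < l then dbP (g m) k l x * u σ x ^ 2 else 0) := fun σ =>
    integrable_finsetSum _ fun m _ => integrable_finsetSum _ fun k _ =>
      integrable_finsetSum _ fun l _ => IP σ m k l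
  have I2 : ∀ σ, Integrable (fun x : Cf n =>
      ∑ j, Z j * ((∑ k, ∑ m, dbN (g m) (X j) (x k)) * u σ x ^ 2)) := fun σ =>
    integrable_finsetSum _ fun j _ => (NL j σ).1.const_mul _
  refine ⟨fun σ => ?_, ?_⟩
  · rw [Dsum]
    exact (I1 σ).sub (I2 σ)
  have ID : ∀ σ, ∫ x, (∑ m, D2 X Z (g m) x) * u σ x ^ 2 =
      (∑ m, ∑ k, ∑ l, if k < l then ∫ x, dbP (g m) k l x * u σ x ^ 2 else 0) -
      ∑ j, Z j * ∫ x : Cf n, (∑ k, ∑ m, dbN (g m) (X j) (x k)) * u σ x ^ 2 := by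
    intro σ
    rw [Dsum, integral_sub (I1 σ) (I2 σ)]
    congr 1
    · rw [integral_finsetSum _ fun m _ => integrable_finsetSum _ fun k _ =>
        integrable_finsetSum _ fun l _ => IP σ m k l]
      refine Finset.sum_congr rfl fun m _ => ?_
      rw [integral_finsetSum _ fun k _ => integrable_finsetSum _ fun l _ => IP σ m k l]
      refine Finset.sum_congr rfl fun k _ => ?_
      rw [integral_finsetSum _ fun l _ => IP σ m k l]
      refine Finset.sum_congr rfl fun l _ => ?_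
      split_ifs
      · rfl
      · exact integral_zero _ _
    · rw [integral_finsetSum _ fun j _ => (NL j σ).1.const_mul _]
      refine Finset.sum_congr rfl fun j _ => ?_
      rw [integral_const_mul]
  have SP := fun m σ => dbi_split h2 h3 h4 X Z (hK m) hρ (hu σ).1 (hu σ).2
  have NI := dbi_nlimit h2 h3 h4 X Z hZ hρ hs0 hK hball hu hB1
  simp only [SP, ID]
  have f1 : ∑ m, ∑ σ, (1 / 2 * (∑ k, ∑ l, if k < l then
        ∫ x, dbP (g m) k l x * u σ x ^ 2 else 0) -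
      ∑ j, Z j * ((∫ x, (∑ k, 1 / nr (x k - X j)) *
          (Pg (g m) (u σ) x * Pg (g m) (u σ) x)) +
        ∫ x, (∑ k, 1 / nr (x k - X j)) * (Pg (g m) (Pg (g m) (u σ)) x * u σ x))) =
      1 / 2 * (∑ σ, ∑ m, ∑ k, ∑ l, if k < l then
        ∫ x, dbP (g m) k l x * u σ x ^ 2 else 0) +
      -(∑ j, Z j * ∑ σ, ∑ m, ((∫ x, (∑ k, 1 / nr (x k - X j)) *
        (Pg (g m) (u σ) x * Pg (g m) (u σ) x)) +
        ∫ x, (∑ k, 1 / nr (x k - X j)) * (Pg (g m) (Pg (g m) (u σ)) x * u σ x))) := by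
    rw [Finset.sum_comm]
    simp only [Finset.sum_sub_distrib, ← Finset.mul_sum]
    rw [sub_eq_add_neg]
    congr 2
    have g1 : ∀ σ, ∑ m, ∑ j, Z j * ((∫ x, (∑ k, 1 / nr (x k - X j)) *
          (Pg (g m) (u σ) x * Pg (g m) (u σ) x)) +
        ∫ x, (∑ k, 1 / nr (x k - X j)) * (Pg (g m) (Pg (g m) (u σ)) x * u σ x)) =
        ∑ j, Z j * ∑ m, ((∫ x, (∑ k, 1 / nr (x k - X j)) *
          (Pg (g m) (u σ) x * Pg (g m) (u σ) x)) +
        ∫ x, (∑ k, 1 / nr (x k - X j)) * (Pg (g m) (Pg (g m) (u σ)) x * u σ x)) := by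
      intro σ
      rw [Finset.sum_comm]
      exact Finset.sum_congr rfl fun j _ => (Finset.mul_sum _ _ _).symm
    simp only [g1]
    rw [Finset.sum_comm]
    exact Finset.sum_congr rfl fun j _ => (Finset.mul_sum _ _ _).symm
  have f2 : ∑ σ, ((∑ m, ∑ k, ∑ l, if k < l then ∫ x, dbP (g m) k l x * u σ x ^ 2 else 0) -
      ∑ j, Z j * ∫ x : Cf n, (∑ k, ∑ m, dbN (g m) (X j) (x k)) * u σ x ^ 2) =
      (∑ σ, ∑ m, ∑ k, ∑ l, if k < l then ∫ x, dbP (g m) k l x * u σ x ^ 2 else 0) -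
      ∑ j, Z j * ∑ σ, ∫ x : Cf n, (∑ k, ∑ m, dbN (g m) (X j) (x k)) * u σ x ^ 2 := by
    rw [Finset.sum_sub_distrib]
    congr 1
    rw [Finset.sum_comm]
    exact Finset.sum_congr rfl fun j _ => (Finset.mul_sum _ _ _).symm
  rw [f1, f2]
  linarith

end Pool.Agent.Helper19.HV
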