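import Pool.Agent.Helper95.HV.Stmts
import Pool.Agent.Helper51.LN.VID
import Pool.Agent.Helper72.PM.PINM

/-! # HV: the row DBI, part a -/

set_option autoImplicit false

namespace Pool.Agent.Helper19.HV

open MeasureTheory Filter Topology Pool.Agent.Helper95 Pool.Agent.Helper95.PW
  Pool.Agent.Helper95.LN Pool.Agent.Helper95.CF Pool.Agent.Helper95.HV
  Pool.Agent.Helper14.PW Pool.Agent.Helper51.LN

theorem dbi_fam {ι : Type} [Fintype ι] (φ : ι → R3 → ℝ) (h : ∀ i, ∃ C, ∀ y, ‖φ i y‖ ≤ C) :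
    ∃ C : ℝ, 0 ≤ C ∧ ∀ i y, |φ i y| ≤ C := by
  choose C hC using h
  refine ⟨∑ i, |C i|, Finset.sum_nonneg fun i _ => abs_nonneg _, fun i y => ?_⟩
  exact ((hC i y).trans (le_abs_self _)).trans
    (Finset.single_le_sum (f := fun i => |C i|) (fun j _ => abs_nonneg _) (Finset.mem_univ i))

theorem dbi_pdc {g : R3 → ℝ} (hc : HasCompactSupport g) (i : Fin 3) :
    HasCompactSupport (pd i g) := by
  unfold pd
  exact hc.fderiv_apply (𝕜 := ℝ) _

theorem dbi_bd {g : R3 → ℝ} (hg : ContDiff ℝ (⊤ : ℕ∞) g) (hc : HasCompactSupport g) :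
    ∃ C, ∀ y, ‖g y‖ ≤ C := hg.continuous.bounded_above_of_compact_support hc

theorem dbi_scale {g : R3 → ℝ} (hg : ContDiff ℝ (⊤ : ℕ∞) g) (hc : HasCompactSupport g)
    {r : ℝ} (hr : 0 < r) : ∃ K0 : ℝ, ∀ K, K0 ≤ K → Scale g K r := by
  have c1 := fun i => poe_pd_cd hg i
  have c2 := fun i j => poe_pd_cd (c1 j) i
  have c3 := fun i j l => poe_pd_cd (c2 j l) i
  have c4 := fun i j l m => poe_pd_cd (c3 j l m) i
  have k1 := fun i => dbi_pdc hc i
  have k2 := fun i j => dbi_pdc (k1 j) i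
  have k3 := fun i j l => dbi_pdc (k2 j l) i
  have k4 := fun i j l m => dbi_pdc (k3 j l m) i
  obtain ⟨C1, p1, h1⟩ := dbi_fam (fun i : Fin 3 => pd i g) (fun i => dbi_bd (c1 i) (k1 i))
  obtain ⟨C2, p2, h2⟩ := dbi_fam (fun i : Fin 3 × Fin 3 => pd i.1 (pd i.2 g))
    (fun i => dbi_bd (c2 _ _) (k2 _ _))
  obtain ⟨C3, p3, h3⟩ := dbi_fam (fun i : Fin 3 × Fin 3 × Fin 3 => pd i.1 (pd i.2.1 (pd i.2.2 g)))
    (fun i => dbi_bd (c3 _ _ _) (k3 _ _ _))
  obtain ⟨C4, p4, h4⟩ := dbi_fam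
    (fun i : Fin 3 × Fin 3 × Fin 3 × Fin 3 => pd i.1 (pd i.2.1 (pd i.2.2.1 (pd i.2.2.2 g))))
    (fun i => dbi_bd (c4 _ _ _ _) (k4 _ _ _ _))
  refine ⟨C1 + C2 * r + C3 * r ^ 2 + C4 * r ^ 3, fun K hK => ?_⟩
  have q2 : 0 ≤ C2 * r := by positivity
  have q3 : 0 ≤ C3 * r ^ 2 := by positivity
  have q4 : 0 ≤ C4 * r ^ 3 := by positivity
  refine ⟨hg, hc, fun i y => (h1 i y).trans (by linarith), fun i j y => (h2 (i, j) y).trans ?_,
    fun i j l y => (h3 (i, j, l) y).trans ?_, fun i j l m y => (h4 (i, j, l, m) y).trans ?_⟩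
  · rw [le_div_iff₀ hr]
    linarith
  · rw [le_div_iff₀ (by positivity)]
    linarith
  · rw [le_div_iff₀ (by positivity)]
    linarith

/-! ### pairs -/

noncomputable def dbP {n : ℕ} (g : R3 → ℝ) (k l : Fin n) (x : Cf n) : ℝ :=
  Tq (x k - x l) (gv g (x k) - gv g (x l)) (gv g (x k) - gv g (x l)) -
      (∑ i, (gq g (x k) i - gq g (x l) i) * (x k i - x l i)) / nr (x k - x l) ^ 3

theorem dbi_gq (g : R3 → ℝ) (y : R3) (i : Fin 3) : gq g y i = poea g i y := by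
  unfold gq poea
  exact Finset.sum_congr rfl fun l _ => mul_comm _ _

theorem dbi_wlim {n : ℕ} (k l : Fin n) (x : Cf n) (hx : nr (x k - x l) ≠ 0) :
    Tendsto (fun m : ℕ => poew k l (1 / ((m : ℝ) + 1)) x) atTop
      (𝓝 (nr (x k - x l))⁻¹) := by
  have hpos : 0 < nr (x k - x l) := lt_of_le_of_ne (poe_nr_nonneg _) (Ne.symm hx)
  unfold poew
  refine Tendsto.inv₀ ?_ hx
  have h1 : Tendsto (fun m : ℕ => nr (x k - x l) ^ 2 + (1 / ((m : ℝ) + 1)) ^ 2) atTop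
      (𝓝 (nr (x k - x l) ^ 2 + 0 ^ 2)) :=
    tendsto_const_nhds.add (tendsto_one_div_add_atTop_nhds_zero_nat.pow 2)
  have h2 := h1.sqrt
  rw [show nr (x k - x l) ^ 2 + (0 : ℝ) ^ 2 = nr (x k - x l) ^ 2 by ring,
    Real.sqrt_sq hpos.le] at h2
  refine h2.congr fun m => ?_
  rw [poe_q_eq]

theorem dbi_plim {n : ℕ} {g : R3 → ℝ} (hg : ContDiff ℝ (⊤ : ℕ∞) g) (k l : Fin n) (x : Cf n)
    (hx : nr (x k - x l) ≠ 0) :
    Tendsto (fun j : ℕ => poeD g (poeh g k l (1 / ((j : ℝ) + 1))) x) atTop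
      (𝓝 (dbP g k l x)) := by
  have h3 := dbi_wlim k l x hx
  have e1 : dbP g k l x = -(((pd 0 g (x k) - pd 0 g (x l)) ^ 2 +
        (pd 1 g (x k) - pd 1 g (x l)) ^ 2 +
        (pd 2 g (x k) - pd 2 g (x l)) ^ 2) +
        ((x k 0 - x l 0) * (poea g 0 (x k) - poea g 0 (x l)) +
        (x k 1 - x l 1) * (poea g 1 (x k) - poea g 1 (x l)) +
        (x k 2 - x l 2) * (poea g 2 (x k) - poea g 2 (x l)))) * (nr (x k - x l))⁻¹ ^ 3 +
      3 * ((x k 0 - x l 0) * (pd 0 g (x k) - pd 0 g (x l)) +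
        (x k 1 - x l 1) * (pd 1 g (x k) - pd 1 g (x l)) +
        (x k 2 - x l 2) * (pd 2 g (x k) - pd 2 g (x l))) ^ 2 * (nr (x k - x l))⁻¹ ^ 5 := by
    unfold dbP Tq
    simp only [dbi_gq, Fin.sum_univ_three, Pi.sub_apply, gv]
    ring
  rw [e1]
  refine (((h3.pow 3).const_mul _).add ((h3.pow 5).const_mul _)).congr fun j => ?_
  rw [poeD_h hg k l (by positivity)]

theorem dbi_pbd {n : ℕ} {g : R3 → ℝ} {K r : ℝ} (hS : Scale g K r) (hr : 0 < r) (k l : Fin n)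
    {e : ℝ} (he : 0 < e) (x : Cf n) (hx : nr (x k - x l) ≠ 0) :
    |poeD g (poeh g k l e) x| ≤ 324 * (K ^ 2 / r ^ 2) * (1 / nr (x k - x l)) := by
  have hg := hS.sm
  have hK : 0 ≤ K := (abs_nonneg _).trans (hS.d1 0 0)
  have hR : 0 < nr (x k - x l) := lt_of_le_of_ne (poe_nr_nonneg _) (Ne.symm hx)
  rw [poeD_h hg k l he]
  have hd : ∀ i : Fin 3, |pd i g (x k) - pd i g (x l)| ≤ 3 * (K / r) * nr (x k - x l) := by
    intro i
    exact poe_lip ((poe_pd_cd hg i).differentiable (by simp)) (by positivity)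
      (fun j y => hS.d2 j i y) _ _
  have hb : ∀ i : Fin 3, |poea g i (x k) - poea g i (x l)| ≤
      18 * (K ^ 2 / r ^ 2) * nr (x k - x l) := by
    intro i
    have := poe_lip ((poea_cd hg i).differentiable (by simp)) (M := 6 * (K ^ 2 / r ^ 2))
      (by positivity) (fun j y => poea_pd hS hr i j y) (x k) (x l)
    linarith
  have hz : ∀ i : Fin 3, |x k i - x l i| ≤ nr (x k - x l) := fun i =>
    poe_abs_le_nr (x k - x l) i
  have hw : 0 < poew k l e x := inv_pos.2 (Real.sqrt_pos.2 (poeq_pos k l he x))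
  have hw1 : poew k l e x ≤ 1 / nr (x k - x l) := by
    unfold poew
    rw [one_div (nr (x k - x l))]
    refine inv_anti₀ hR ?_
    refine Real.le_sqrt_of_sq_le ?_
    rw [poe_q_eq]
    have := sq_nonneg e
    linarith
  have hc : K ^ 2 / r ^ 2 = (K / r) ^ 2 := by rw [div_pow]
  have hm : 0 ≤ K / r := by positivity
  rw [hc] at hb ⊢
  have D := fun i => hd i
  have P := fun i : Fin 3 => hb i
  generalize K / r = m at D P hd hb hm ⊢
  generalize hRR : nr (x k - x l) = R at hR D P hd hb hz hw1 ⊢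
  generalize poew k l e x = w at hw hw1 ⊢
  have sqb : ∀ i : Fin 3, |(pd i g (x k) - pd i g (x l)) ^ 2| ≤ 9 * m ^ 2 * R ^ 2 := by
    intro i
    rw [abs_pow]
    calc |pd i g (x k) - pd i g (x l)| ^ 2 ≤ (3 * m * R) ^ 2 :=
          pow_le_pow_left₀ (abs_nonneg _) (hd i) 2
      _ = _ := by ring
  have zb : ∀ i : Fin 3, |(x k i - x l i) * (poea g i (x k) - poea g i (x l))| ≤
      18 * m ^ 2 * R ^ 2 := by
    intro i
    rw [abs_mul]
    calc _ ≤ R * (18 * m ^ 2 * R) := mul_le_mul (hz i) (hb i) (abs_nonneg _) hR.le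
      _ = _ := by ring
  have zd : ∀ i : Fin 3, |(x k i - x l i) * (pd i g (x k) - pd i g (x l))| ≤
      3 * m * R ^ 2 := by
    intro i
    rw [abs_mul]
    calc _ ≤ R * (3 * m * R) := mul_le_mul (hz i) (hd i) (abs_nonneg _) hR.le
      _ = _ := by ring
  have s0 := sqb 0
  have s1 := sqb 1
  have s2 := sqb 2
  have b0 := zb 0
  have b1 := zb 1
  have b2 := zb 2
  have d0 := zd 0
  have d1 := zd 1
  have d2 := zd 2
  generalize (pd 0 g (x k) - pd 0 g (x l)) ^ 2 = S0 at s0 ⊢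
  generalize (pd 1 g (x k) - pd 1 g (x l)) ^ 2 = S1 at s1 ⊢
  generalize (pd 2 g (x k) - pd 2 g (x l)) ^ 2 = S2 at s2 ⊢
  generalize (x k 0 - x l 0) * (poea g 0 (x k) - poea g 0 (x l)) = B0 at b0 ⊢
  generalize (x k 1 - x l 1) * (poea g 1 (x k) - poea g 1 (x l)) = B1 at b1 ⊢
  generalize (x k 2 - x l 2) * (poea g 2 (x k) - poea g 2 (x l)) = B2 at b2 ⊢
  generalize (x k 0 - x l 0) * (pd 0 g (x k) - pd 0 g (x l)) = E0 at d0 ⊢
  generalize (x k 1 - x l 1) * (pd 1 g (x k) - pd 1 g (x l)) = E1 at d1 ⊢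
  generalize (x k 2 - x l 2) * (pd 2 g (x k) - pd 2 g (x l)) = E2 at d2 ⊢
  have t1 : |S0 + S1 + S2 + (B0 + B1 + B2)| ≤ 81 * m ^ 2 * R ^ 2 := by
    rw [abs_le] at s0 s1 s2 b0 b1 b2 ⊢
    constructor <;> linarith [s0.1, s0.2, s1.1, s1.2, s2.1, s2.2, b0.1, b0.2, b1.1, b1.2,
      b2.1, b2.2]
  have t2 : |E0 + E1 + E2| ≤ 9 * m * R ^ 2 := by
    rw [abs_le] at d0 d1 d2 ⊢
    constructor <;> linarith [d0.1, d0.2, d1.1, d1.2, d2.1, d2.2]
  have t3 : (E0 + E1 + E2) ^ 2 ≤ (9 * m * R ^ 2) ^ 2 := by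
    rw [← sq_abs]
    exact pow_le_pow_left₀ (abs_nonneg _) t2 2
  have w3 : w ^ 3 ≤ (1 / R) ^ 3 := pow_le_pow_left₀ hw.le hw1 3
  have w5 : w ^ 5 ≤ (1 / R) ^ 5 := pow_le_pow_left₀ hw.le hw1 5
  have f1 : |-(S0 + S1 + S2 + (B0 + B1 + B2)) * w ^ 3| ≤ 81 * m ^ 2 * R ^ 2 * (1 / R) ^ 3 := by
    rw [abs_mul, abs_neg, abs_of_pos (pow_pos hw 3)]
    exact mul_le_mul t1 w3 (by positivity) (by positivity)
  have f2 : |3 * (E0 + E1 + E2) ^ 2 * w ^ 5| ≤ 3 * (9 * m * R ^ 2) ^ 2 * (1 / R) ^ 5 := by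
    rw [abs_of_nonneg (by positivity)]
    exact mul_le_mul (mul_le_mul_of_nonneg_left t3 (by norm_num)) w5 (by positivity)
      (by positivity)
  calc _ ≤ _ := abs_add_le _ _
    _ ≤ 81 * m ^ 2 * R ^ 2 * (1 / R) ^ 3 + 3 * (9 * m * R ^ 2) ^ 2 * (1 / R) ^ 5 :=
        add_le_add f1 f2
    _ = 324 * m ^ 2 * (1 / R) := by field_simp; ring

theorem dbi_pair {n : ℕ} (hPAN : ST_PAN) (hSTB : ST_STB) (hI : ST_INTM) {g : R3 → ℝ}
    {K r : ℝ} (hS : Scale g K r) (hr : 0 < r) {k l : Fin n} (hkl : k < l) {v : Cf n → ℝ}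
    (hv : ContDiff ℝ (⊤ : ℕ∞) v) (hvc : HasCompactSupport v) :
    Integrable (fun x => dbP g k l x * v x ^ 2) ∧
    (∫ x, 1 / nr (x k - x l) * (Pg g v x * Pg g v x)) +
      (∫ x, 1 / nr (x k - x l) * (Pg g (Pg g v) x * v x)) =
      1 / 2 * ∫ x, dbP g k l x * v x ^ 2 := by
  have hg := hS.sm
  obtain ⟨hp, hpc⟩ := poe_sm hSTB hg hv hvc
  obtain ⟨hpp, hppc⟩ := poe_sm hSTB hg hp hpc
  have c1 : Continuous (fun x => Pg g v x * Pg g v x) := hp.continuous.mul hp.continuous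
  have c2 : Continuous (fun x => Pg g (Pg g v) x * v x) := hpp.continuous.mul hv.continuous
  have c3 : Continuous (fun x => v x * v x) := hv.continuous.mul hv.continuous
  have J1 := poe_pi hkl c1 (hI n 0 (fun j => j.elim0) (fun _ => 0) _ _ hp hpc hp hpc).2.1
  have J2 := poe_pi hkl c2 (hI n 0 (fun j => j.elim0) (fun _ => 0) _ _ hpp hppc hv hvc).2.1
  have J3 := poe_pi hkl c3 (hI n 0 (fun j => j.elim0) (fun _ => 0) _ _ hv hvc hv hvc).2.1
  have t1 := (poe_lim hkl.ne c1 J1).add (poe_lim hkl.ne c2 J2)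
  have hmeas : ∀ m : ℕ, AEStronglyMeasurable (fun x : Cf n =>
      poeD g (poeh g k l (1 / ((m : ℝ) + 1))) x * v x ^ 2) volume := by
    intro m
    have he : (0 : ℝ) < 1 / ((m : ℝ) + 1) := by positivity
    exact ((poe_Dc hg (poeh_cd hg k l he)).mul (hv.continuous.pow 2)).aestronglyMeasurable
  have hbound : ∀ m : ℕ, ∀ᵐ x : Cf n, ‖poeD g (poeh g k l (1 / ((m : ℝ) + 1))) x * v x ^ 2‖ ≤
      324 * (K ^ 2 / r ^ 2) * (1 / nr (x k - x l) * (v x * v x)) := by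
    intro m
    have he : (0 : ℝ) < 1 / ((m : ℝ) + 1) := by positivity
    filter_upwards [poe_null hkl.ne] with x hx
    rw [Real.norm_eq_abs, abs_mul, abs_of_nonneg (sq_nonneg (v x))]
    calc _ ≤ 324 * (K ^ 2 / r ^ 2) * (1 / nr (x k - x l)) * v x ^ 2 :=
          mul_le_mul_of_nonneg_right (dbi_pbd hS hr k l he x hx) (sq_nonneg _)
      _ = _ := by ring
  have hlim : ∀ᵐ x : Cf n, Tendsto (fun m : ℕ =>
      poeD g (poeh g k l (1 / ((m : ℝ) + 1))) x * v x ^ 2) atTop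
      (𝓝 (dbP g k l x * v x ^ 2)) := by
    filter_upwards [poe_null hkl.ne] with x hx
    exact (dbi_plim hg k l x hx).mul_const _
  have t2 := tendsto_integral_of_dominated_convergence _ hmeas
    (J3.const_mul (324 * (K ^ 2 / r ^ 2))) hbound hlim
  have hint : Integrable (fun x => dbP g k l x * v x ^ 2) := by
    refine (J3.const_mul (324 * (K ^ 2 / r ^ 2))).mono'
      (aestronglyMeasurable_of_tendsto_ae atTop hmeas hlim) ?_
    have hb := ae_all_iff.2 hbound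
    filter_upwards [hlim, hb] with x h1 h2
    exact le_of_tendsto' h1.norm h2
  refine ⟨hint, ?_⟩
  refine tendsto_nhds_unique t1 ((t2.const_mul (1 / 2)).congr fun m => ?_)
  have he : (0 : ℝ) < 1 / ((m : ℝ) + 1) := by positivity
  have hWc : ContDiff ℝ (⊤ : ℕ∞) (poew k l (1 / ((m : ℝ) + 1))) := poew_cd k l he
  have hhc : ContDiff ℝ (⊤ : ℕ∞) (poeh g k l (1 / ((m : ℝ) + 1))) := poeh_cd hg k l he
  have j1 := poe_id1 hPAN hg hv hvc hp hpc rfl hWc hhc (fun x => poeD_w k l he x)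
  have j2 := poe_id2 hPAN hg hv hvc hp rfl hhc
  have e1 : ∫ x, poew k l (1 / ((m : ℝ) + 1)) x * (Pg g v x * Pg g v x) =
      ∫ x, poew k l (1 / ((m : ℝ) + 1)) x * Pg g v x ^ 2 := by
    congr 1
    funext x
    ring
  rw [e1]
  linarith

end Pool.Agent.Helper19.HV
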