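import Pool.Agent.Helper19.HV.DBIa

/-! # HV: the row DBI, part b (nuclei) -/

set_option autoImplicit false

namespace Pool.Agent.Helper19.HV

open MeasureTheory Filter Topology Pool.Agent.Helper95 Pool.Agent.Helper95.PW
  Pool.Agent.Helper95.LN Pool.Agent.Helper95.CF Pool.Agent.Helper95.HV
  Pool.Agent.Helper14.PW Pool.Agent.Helper51.LN

noncomputable def dbN (g : R3 → ℝ) (a y : R3) : ℝ :=
  Tq (y - a) (gv g y) (gv g y) - (∑ i, gq g y i * (y i - a i)) / nr (y - a) ^ 3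

theorem dbi_pddM {s : ℝ} (hs : 0 < s) (a : R3) (i j : Fin 3) (y : R3) :
    pd i (pd j (pinM_U a s)) y =
      pin_B s (pin_q s (y - a)) * (2 * (y i - a i)) * (2 * (y j - a j)) +
      pin_A s (pin_q s (y - a)) * (2 * (if j = i then 1 else 0)) := by
  have e1 : pd j (pinM_U a s) = fun z => pd j (pin_U s) (z - a) := by
    funext z
    have e : pinM_U a s = fun z => pin_U s (z - a) := rfl
    unfold pd
    rw [e, fderiv_comp_sub]
  have e2 : pd i (pd j (pinM_U a s)) y = pd i (pd j (pin_U s)) (y - a) := by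
    rw [e1]
    show fderiv ℝ (fun z => pd j (pin_U s) (z - a)) y (Pi.single i 1) = _
    rw [fderiv_comp_sub]
    rfl
  rw [e2, pin_pddU hs]
  rfl

theorem dbi_flim (a : R3) {y : R3} (hy : y - a ≠ 0) :
    Tendsto (fun m : ℕ => pin_f (pin_q (1 / ((m : ℝ) + 1)) (y - a))) atTop
      (𝓝 (nr (y - a))⁻¹) := by
  have ha := pin_nrpos hy
  have h1 : Tendsto (fun m : ℕ => nr (y - a) ^ 2 + (1 / ((m : ℝ) + 1)) ^ 2) atTop
      (𝓝 (nr (y - a) ^ 2 + 0 ^ 2)) :=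
    tendsto_const_nhds.add (tendsto_one_div_add_atTop_nhds_zero_nat.pow 2)
  have h2 := h1.sqrt
  rw [show nr (y - a) ^ 2 + (0 : ℝ) ^ 2 = nr (y - a) ^ 2 by ring, Real.sqrt_sq ha.le] at h2
  refine (h2.inv₀ ha.ne').congr fun m => ?_
  unfold pin_f
  rw [pin_qn]

theorem dbi_nlim {g : R3 → ℝ} (hg : ContDiff ℝ (⊤ : ℕ∞) g) (a : R3) {y : R3}
    (hy : y - a ≠ 0) :
    Tendsto (fun j : ℕ => pin_D g (pin_D g (pinM_U a (1 / ((j : ℝ) + 1)))) y) atTop
      (𝓝 (dbN g a y)) := by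
  have h3 := dbi_flim a hy
  have hA : Tendsto (fun m : ℕ => pin_A (1 / ((m : ℝ) + 1))
      (pin_q (1 / ((m : ℝ) + 1)) (y - a))) atTop
      (𝓝 (-(1 / 2) * (nr (y - a))⁻¹ ^ 3 - 3 / 4 * 0 ^ 2 * (nr (y - a))⁻¹ ^ 5)) := by
    unfold pin_A
    exact ((h3.pow 3).const_mul _).sub
      (((tendsto_one_div_add_atTop_nhds_zero_nat.pow 2).const_mul (3 / 4)).mul (h3.pow 5))
  have hB : Tendsto (fun m : ℕ => pin_B (1 / ((m : ℝ) + 1))
      (pin_q (1 / ((m : ℝ) + 1)) (y - a))) atTop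
      (𝓝 (3 / 4 * (nr (y - a))⁻¹ ^ 5 + 15 / 8 * 0 ^ 2 * (nr (y - a))⁻¹ ^ 7)) := by
    unfold pin_B
    exact ((h3.pow 5).const_mul _).add
      (((tendsto_one_div_add_atTop_nhds_zero_nat.pow 2).const_mul (15 / 8)).mul (h3.pow 7))
  have h5 : Tendsto (fun m : ℕ => ∑ i, pd i g y * ∑ j, (pd i (pd j g) y *
      (pin_A (1 / ((m : ℝ) + 1)) (pin_q (1 / ((m : ℝ) + 1)) (y - a)) * (2 * (y j - a j))) +
      pd j g y * (pin_B (1 / ((m : ℝ) + 1)) (pin_q (1 / ((m : ℝ) + 1)) (y - a)) *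
        (2 * (y i - a i)) * (2 * (y j - a j)) +
      pin_A (1 / ((m : ℝ) + 1)) (pin_q (1 / ((m : ℝ) + 1)) (y - a)) *
        (2 * (if j = i then 1 else 0))))) atTop
      (𝓝 (∑ i, pd i g y * ∑ j, (pd i (pd j g) y *
      ((-(1 / 2) * (nr (y - a))⁻¹ ^ 3 - 3 / 4 * 0 ^ 2 * (nr (y - a))⁻¹ ^ 5) *
        (2 * (y j - a j))) +
      pd j g y * ((3 / 4 * (nr (y - a))⁻¹ ^ 5 + 15 / 8 * 0 ^ 2 * (nr (y - a))⁻¹ ^ 7) *
        (2 * (y i - a i)) * (2 * (y j - a j)) +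
      (-(1 / 2) * (nr (y - a))⁻¹ ^ 3 - 3 / 4 * 0 ^ 2 * (nr (y - a))⁻¹ ^ 5) *
        (2 * (if j = i then 1 else 0)))))) :=
    tendsto_finsetSum _ fun i _ => (tendsto_finsetSum _ fun j _ =>
      ((hA.mul_const _).const_mul _).add
        ((((hB.mul_const _).mul_const _).add (hA.mul_const _)).const_mul _)).const_mul _
  have e6 : (∑ i, pd i g y * ∑ j, (pd i (pd j g) y *
      ((-(1 / 2) * (nr (y - a))⁻¹ ^ 3 - 3 / 4 * 0 ^ 2 * (nr (y - a))⁻¹ ^ 5) *
        (2 * (y j - a j))) +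
      pd j g y * ((3 / 4 * (nr (y - a))⁻¹ ^ 5 + 15 / 8 * 0 ^ 2 * (nr (y - a))⁻¹ ^ 7) *
        (2 * (y i - a i)) * (2 * (y j - a j)) +
      (-(1 / 2) * (nr (y - a))⁻¹ ^ 3 - 3 / 4 * 0 ^ 2 * (nr (y - a))⁻¹ ^ 5) *
        (2 * (if j = i then 1 else 0))))) = dbN g a y := by
    unfold dbN Tq gv gq
    simp only [Fin.sum_univ_three, Pi.sub_apply]
    simp
    ring
  rw [e6] at h5
  refine h5.congr fun m => ?_
  have hs : (0 : ℝ) < 1 / ((m : ℝ) + 1) := by positivity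
  rw [pin_DD hg (pinM_smU a hs)]
  simp only [dbi_pddM hs, vid_pdM hs]

theorem dbi_nball {g : Fin 3 → R3 → ℝ} (a : R3) {ρ : ℝ}
    (h : ∀ m y, nr (y - a) < ρ → ∀ i, pd i (g m) y = if i = m then 1 else 0) {y : R3}
    (hy : y - a ≠ 0) (hyρ : nr (y - a) < ρ) : ∑ m, dbN (g m) a y = 0 := by
  have hO : IsOpen {z : R3 | nr (z - a) < ρ} :=
    isOpen_lt (pin_nrc.comp (continuous_id.sub continuous_const)) continuous_const
  have h0 : ∀ m i l, pd l (pd i (g m)) y = 0 := by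
    intro m i l
    have he : pd i (g m) =ᶠ[𝓝 y] fun _ => (if i = m then (1 : ℝ) else 0) := by
      filter_upwards [hO.mem_nhds hyρ] with z hz using h m z hz i
    show fderiv ℝ (pd i (g m)) y (Pi.single l 1) = 0
    rw [he.fderiv_eq]
    simp
  have h1 : ∀ m i, gq (g m) y i = 0 := by
    intro m i
    unfold gq
    exact Finset.sum_eq_zero fun l _ => by rw [h0, zero_mul]
  have h2 : ∀ m i, gv (g m) y i = if i = m then 1 else 0 := fun m i => h m y hyρ i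
  have ha := pin_nrpos hy
  have hr2 : nr (y - a) ^ 2 = (y 0 - a 0) ^ 2 + (y 1 - a 1) ^ 2 + (y 2 - a 2) ^ 2 := by
    unfold nr
    rw [Real.sq_sqrt (by positivity)]
    rfl
  unfold dbN Tq
  simp only [h1, h2, Fin.sum_univ_three, Pi.sub_apply, zero_mul, add_zero, zero_div, sub_zero]
  generalize nr (y - a) = r at ha hr2 ⊢
  have e : (y 0 - a 0) ^ 2 + (y 1 - a 1) ^ 2 + (y 2 - a 2) ^ 2 = r ^ 2 := hr2.symm
  simp
  have h3 : r ^ 5 ≠ 0 := by positivity
  field_simp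
  nlinarith

theorem dbi_far {g : Fin 3 → R3 → ℝ} {K ρ s : ℝ} (a : R3) (hs : 0 < s) (hρ : 0 < ρ)
    (hK : ∀ m, Scale (g m) K ρ) (y : R3) :
    |if ρ ≤ nr (y - a) then ∑ m, pin_D (g m) (pin_D (g m) (pinM_U a s)) y else 0| ≤
      420 * K ^ 2 / ρ ^ 2 * (1 / ρ) := by
  split_ifs with h
  · calc _ ≤ ∑ m, |pin_D (g m) (pin_D (g m) (pinM_U a s)) y| :=
          Finset.abs_sum_le_sum_abs _ _
      _ ≤ ∑ _m : Fin 3, 140 * K ^ 2 / ρ ^ 2 * (1 / ρ) := by
          refine Finset.sum_le_sum fun m _ => ?_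
          refine (pinM_out a hs hρ (hK m) y h).trans ?_
          exact mul_le_mul_of_nonneg_left (one_div_le_one_div_of_le hρ h) (by positivity)
      _ = _ := by simp; ring
  · rw [abs_zero]
    positivity

/-- the far part of the regularized second derivative -/
noncomputable def dbG (g : Fin 3 → R3 → ℝ) (ρ : ℝ) (a : R3) (s : ℝ) (y : R3) : ℝ :=
  if ρ ≤ nr (y - a) then ∑ m, pin_D (g m) (pin_D (g m) (pinM_U a s)) y else 0

theorem dbi_Gmeas {n : ℕ} {g : Fin 3 → R3 → ℝ} (hg : ∀ m, ContDiff ℝ (⊤ : ℕ∞) (g m)) {ρ : ℝ}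
    (a : R3) {s : ℝ} (hs : 0 < s) : Measurable (pin_S (n := n) (dbG g ρ a s)) := by
  have h1 : Measurable (dbG g ρ a s) := by
    unfold dbG
    refine Measurable.ite ?_ ?_ measurable_const
    · exact (isClosed_le continuous_const
        (pin_nrc.comp (continuous_id.sub continuous_const))).measurableSet
    · exact (continuous_finsetSum _ fun m _ =>
        (pin_smD (hg m) (pin_smD (hg m) (pinM_smU a hs))).continuous).measurable
  unfold pin_S
  exact Finset.measurable_sum _ fun k _ => h1.comp (measurable_pi_apply k)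

theorem dbi_Gbd {n : ℕ} {g : Fin 3 → R3 → ℝ} {K ρ s : ℝ} (a : R3) (hs : 0 < s) (hρ : 0 < ρ)
    (hK : ∀ m, Scale (g m) K ρ) (x : Cf n) :
    |pin_S (dbG g ρ a s) x| ≤ n * (420 * K ^ 2 / ρ ^ 2 * (1 / ρ)) := by
  unfold pin_S
  calc _ ≤ ∑ k, |dbG g ρ a s (x k)| := Finset.abs_sum_le_sum_abs _ _
    _ ≤ ∑ _k : Fin n, 420 * K ^ 2 / ρ ^ 2 * (1 / ρ) :=
        Finset.sum_le_sum fun k _ => dbi_far a hs hρ hK (x k)
    _ = _ := by simp

theorem dbi_nuclim {n : ℕ} {g : Fin 3 → R3 → ℝ} {K ρ : ℝ} (a : R3) (hρ : 0 < ρ)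
    (hK : ∀ m, Scale (g m) K ρ)
    (h : ∀ m y, nr (y - a) < ρ → ∀ i, pd i (g m) y = if i = m then 1 else 0)
    {v : Cf n → ℝ} (hv : ContDiff ℝ (⊤ : ℕ∞) v) (hvc : HasCompactSupport v) :
    Integrable (fun x : Cf n => (∑ k, ∑ m, dbN (g m) a (x k)) * v x ^ 2) ∧
    Tendsto (fun j : ℕ => ∫ x, pin_S (dbG g ρ a (1 / ((j : ℝ) + 1))) x * v x ^ 2) atTop
      (𝓝 (∫ x : Cf n, (∑ k, ∑ m, dbN (g m) a (x k)) * v x ^ 2)) := by
  have hg := fun m => (hK m).sm
  have J : Integrable (fun x : Cf n => n * (420 * K ^ 2 / ρ ^ 2 * (1 / ρ)) * v x ^ 2) :=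
    poe_int2 hvc hv.continuous continuous_const
  have hmeas : ∀ j : ℕ, AEStronglyMeasurable (fun x : Cf n =>
      pin_S (dbG g ρ a (1 / ((j : ℝ) + 1))) x * v x ^ 2) volume := by
    intro j
    have hs : (0 : ℝ) < 1 / ((j : ℝ) + 1) := by positivity
    exact (dbi_Gmeas hg a hs).aestronglyMeasurable.mul
      (hv.continuous.pow 2).aestronglyMeasurable
  have hbound : ∀ j : ℕ, ∀ᵐ x : Cf n, ‖pin_S (dbG g ρ a (1 / ((j : ℝ) + 1))) x * v x ^ 2‖ ≤
      n * (420 * K ^ 2 / ρ ^ 2 * (1 / ρ)) * v x ^ 2 := by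
    intro j
    have hs : (0 : ℝ) < 1 / ((j : ℝ) + 1) := by positivity
    refine ae_of_all _ fun x => ?_
    rw [Real.norm_eq_abs, abs_mul, abs_of_nonneg (sq_nonneg (v x))]
    exact mul_le_mul_of_nonneg_right (dbi_Gbd a hs hρ hK x) (sq_nonneg _)
  have hlim : ∀ᵐ x : Cf n, Tendsto (fun j : ℕ =>
      pin_S (dbG g ρ a (1 / ((j : ℝ) + 1))) x * v x ^ 2) atTop
      (𝓝 ((∑ k, ∑ m, dbN (g m) a (x k)) * v x ^ 2)) := by
    filter_upwards [pinM_ae n a] with x hx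
    refine Tendsto.mul_const _ ?_
    unfold pin_S
    refine tendsto_finsetSum _ fun k _ => ?_
    unfold dbG
    by_cases hk : ρ ≤ nr (x k - a)
    · simp only [if_pos hk]
      exact tendsto_finsetSum _ fun m _ => dbi_nlim (hg m) a (hx k)
    · simp only [if_neg hk]
      rw [dbi_nball a h (hx k) (not_le.1 hk)]
      exact tendsto_const_nhds
  refine ⟨?_, tendsto_integral_of_dominated_convergence _ hmeas J hbound hlim⟩
  refine J.mono' (aestronglyMeasurable_of_tendsto_ae atTop hmeas hlim) ?_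
  have hb := ae_all_iff.2 hbound
  filter_upwards [hlim, hb] with x h1 h2
  exact le_of_tendsto' h1.norm h2

theorem dbi_morc {s : ℝ} (hs : 0 < s) : Continuous (mor s) := by
  have : mor s = fun y => 15 / 2 * s ^ 4 * pin_f (pin_q s y) ^ 7 :=
    funext fun y => pin_mor hs y
  rw [this]
  have := (pin_smf hs).continuous
  fun_prop

/-- pointwise: regularized second derivative, with the Morawetz kernel -/
theorem dbi_npt {g : Fin 3 → R3 → ℝ} {ρ s : ℝ} (a : R3) (hs : 0 < s)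
    (h : ∀ m y, nr (y - a) < ρ → ∀ i, pd i (g m) y = if i = m then 1 else 0) (y : R3) :
    -(∑ m, pin_D (g m) (pin_D (g m) (pinM_U a s)) y) ≤ -dbG g ρ a s y + mor s (y - a) := by
  have hm : 0 ≤ mor s (y - a) := by
    rw [pin_mor hs]
    have := pin_fpos (pin_qpos hs (y - a))
    positivity
  unfold dbG
  by_cases hy : ρ ≤ nr (y - a)
  · rw [if_pos hy]
    linarith
  · rw [if_neg hy]
    have hy' := not_le.1 hy
    have hg1 : ∀ m z, nr z < ρ → ∀ i, pd i (fun z => g m (z + a)) z = if i = m then 1 else 0 := by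
      intro m z hz i
      rw [pinM_pdt]
      exact h m (z + a) (by simpa using hz) i
    have h1 : ∑ m, pin_D (g m) (pin_D (g m) (pinM_U a s)) y = -mor s (y - a) := by
      rw [Finset.sum_congr rfl (fun m _ => pinM_DD a (g m) s y),
        Finset.sum_congr rfl (fun m _ => pinM_inner (hg1 m) (y - a) hy'), pin_lap hs,
        pin_mor hs]
    rw [h1]
    linarith

theorem dbi_nineq (h1 : ST_PAN) (h2 : ST_STB) {n : ℕ} {g : Fin 3 → R3 → ℝ} {K ρ s : ℝ} (a : R3)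
    (hs : 0 < s) (hρ : 0 < ρ) (hK : ∀ m, Scale (g m) K ρ)
    (h : ∀ m y, nr (y - a) < ρ → ∀ i, pd i (g m) y = if i = m then 1 else 0)
    {v : Cf n → ℝ} (hv : ContDiff ℝ (⊤ : ℕ∞) v) (hvc : HasCompactSupport v) :
    -(∑ m, ((∫ x, pin_S (pinM_U a s) x * Pg (g m) v x ^ 2) +
        ∫ x, pin_S (pinM_U a s) x * (Pg (g m) (Pg (g m) v) x * v x))) ≤
      -(1 / 2 * ∫ x, pin_S (dbG g ρ a s) x * v x ^ 2) +
        1 / 2 * ∫ x, (∑ k, mor s (x k - a)) * v x ^ 2 := by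
  have hg := fun m => (hK m).sm
  have e1 : ∀ m : Fin 3, ((∫ x, pin_S (pinM_U a s) x * Pg (g m) v x ^ 2) +
        ∫ x, pin_S (pinM_U a s) x * (Pg (g m) (Pg (g m) v) x * v x)) =
      1 / 2 * ∫ x, pin_S (pin_D (g m) (pin_D (g m) (pinM_U a s))) x * v x ^ 2 := fun m =>
    pin_id h1 h2 (hg m) (pinM_smU a hs) hv hvc
  rw [Finset.sum_congr rfl (fun m _ => e1 m)]
  have hcu := hv.continuous
  have i1 : ∀ m, Integrable (fun x : Cf n => pin_S (pin_D (g m) (pin_D (g m) (pinM_U a s))) x *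
      v x ^ 2) := fun m =>
    poe_int2 hvc hcu (pin_smS (n := n) (pin_smD (hg m) (pin_smD (hg m)
      (pinM_smU a hs)))).continuous
  have i3 : Integrable (fun x : Cf n => (∑ k, mor s (x k - a)) * v x ^ 2) := by
    have hm1 := dbi_morc hs
    have hm : Continuous (fun x : Cf n => ∑ k, mor s (x k - a)) := by fun_prop
    exact poe_int2 hvc hcu hm
  have i2 : Integrable (fun x : Cf n => pin_S (dbG g ρ a s) x * v x ^ 2) := by
    refine (poe_int2 hvc hcu (W := fun _ => n * (420 * K ^ 2 / ρ ^ 2 * (1 / ρ)))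
      continuous_const).mono' ((dbi_Gmeas hg a hs).aestronglyMeasurable.mul
      (hcu.pow 2).aestronglyMeasurable) (ae_of_all _ fun x => ?_)
    rw [Real.norm_eq_abs, abs_mul, abs_of_nonneg (sq_nonneg (v x))]
    exact mul_le_mul_of_nonneg_right (dbi_Gbd a hs hρ hK x) (sq_nonneg _)
  have l1 : -(∑ m : Fin 3, 1 / 2 * ∫ x, pin_S (pin_D (g m) (pin_D (g m) (pinM_U a s))) x *
      v x ^ 2) = 1 / 2 * ∫ x, -(∑ m : Fin 3,
        (pin_S (pin_D (g m) (pin_D (g m) (pinM_U a s))) x * v x ^ 2)) := by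
    rw [integral_neg, integral_finsetSum _ (fun m _ => i1 m), ← Finset.mul_sum]
    ring
  have i2n : Integrable (fun x : Cf n => -(pin_S (dbG g ρ a s) x * v x ^ 2)) := i2.neg
  have l2 : -(1 / 2 * ∫ x, pin_S (dbG g ρ a s) x * v x ^ 2) +
        1 / 2 * (∫ x, (∑ k, mor s (x k - a)) * v x ^ 2) =
      1 / 2 * ∫ x, (-(pin_S (dbG g ρ a s) x * v x ^ 2) +
        (∑ k, mor s (x k - a)) * v x ^ 2) := by
    rw [integral_add i2n i3, integral_neg]
    ring
  rw [l1, l2]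
  apply mul_le_mul_of_nonneg_left _ (by norm_num)
  refine integral_mono (integrable_finsetSum _ fun m _ => i1 m).neg (i2.neg.add i3)
    (fun x => ?_)
  simp only
  have hp : ∑ k, -(∑ m, pin_D (g m) (pin_D (g m) (pinM_U a s)) (x k)) ≤
      ∑ k, (-dbG g ρ a s (x k) + mor s (x k - a)) :=
    Finset.sum_le_sum fun k _ => dbi_npt a hs h (x k)
  have q1 : -(∑ m : Fin 3,
      (pin_S (pin_D (g m) (pin_D (g m) (pinM_U a s))) x * v x ^ 2)) =
      (∑ k, -(∑ m, pin_D (g m) (pin_D (g m) (pinM_U a s)) (x k))) * v x ^ 2 := by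
    unfold pin_S
    rw [Finset.sum_neg_distrib, Finset.sum_comm, neg_mul, Finset.sum_mul]
  have q2 : -(pin_S (dbG g ρ a s) x * v x ^ 2) + (∑ k, mor s (x k - a)) * v x ^ 2 =
      (∑ k, (-dbG g ρ a s (x k) + mor s (x k - a))) * v x ^ 2 := by
    unfold pin_S
    rw [Finset.sum_add_distrib, Finset.sum_neg_distrib]
    ring
  rw [q1, q2]
  exact mul_le_mul_of_nonneg_right hp (sq_nonneg _)

end Pool.Agent.Helper19.HV
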